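import Pool.Agent.Helper95.OD.St

set_option autoImplicit false
set_option linter.unusedVariables false

/-! OD module ME (MP_e0fa86_co): main estimate, union bound over bad switches. -/

namespace Pool.Agent.Helper33.OD

open Pool.Agent.Helper95.OD Finset
open scoped Classical

variable {m r : ℕ}

theorem lo_ne_hi (c : Cl m r) : lo c ≠ hi c := by
  intro h
  exact absurd (congrArg Prod.fst h) (ne_of_lt c.1.2)

theorem mem_Ev {M : Finset (Cl m r)} {σ : Cfg m r} : σ ∈ Ev M ↔ ∀ c ∈ M, Pres σ c := by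
  simp [Ev]

/-- numerical estimate -/
theorem num1 {s : ℕ} (h : Hy m r s) :
    ((m : ℝ) * r) ^ (s - 2) * (2 / (r : ℝ)) ^ (s.choose 2 - 1) ≤ 1 / 128 := by
  obtain ⟨h1, h3, h16, h⟩ := h
  have hr : (0 : ℝ) < r := by
    have : 0 < r := by omega
    exact_mod_cast this
  have hC : 1 ≤ s.choose 2 := by
    have : 0 < s.choose 2 := Nat.choose_pos (by omega)
    omega
  obtain ⟨C, hC'⟩ : ∃ C, s.choose 2 = C + 1 := ⟨s.choose 2 - 1, by omega⟩
  rw [hC'] at h ⊢
  simp only [Nat.add_sub_cancel] at h ⊢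
  have h' : (64 : ℝ) * 2 ^ (C + 1) * ((m : ℝ) * r) ^ (s - 2) ≤ (r : ℝ) ^ C := by
    exact_mod_cast h
  rw [div_pow, ← mul_div_assoc, div_le_iff₀ (pow_pos hr _)]
  rw [pow_succ] at h'
  nlinarith [h']

/-- the cells of one pair of fibres -/
theorem cntQ (e : Pr m) : ((univ : Finset (Cl m r)).filter (fun b => b.1 = e)).card ≤ r * r := by
  have : ((univ : Finset (Cl m r)).filter (fun b => b.1 = e)).card ≤
      (univ : Finset (Fin r × Fin r)).card := by
    apply Finset.card_le_card_of_injOn (fun b => b.2)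
    · intro b hb; simp
    · intro a ha b hb hab
      simp only [Finset.coe_filter, Set.mem_ofPred_eq, Finset.mem_univ, true_and] at ha hb
      exact Prod.ext (ha.trans hb.symm) hab
  simpa using this

/-- the cells of a thin set in one pair of fibres -/
theorem cntA {T : Finset (Vx m r)} (hT : Thin T) {A : Finset (Cl m r)} (hA : A ⊆ cells T)
    (e : Pr m) : 256 * (A.filter (fun b => b.1 = e)).card ≤ r * r := by
  have h1 := hT e.1.1
  have h2 := hT e.1.2
  have h3 : (A.filter (fun b => b.1 = e)).card ≤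
      ((T.filter (fun v => v.1 = e.1.1)) ×ˢ (T.filter (fun v => v.1 = e.1.2))).card := by
    apply Finset.card_le_card_of_injOn (fun b => (lo b, hi b))
    · intro b hb
      simp only [Finset.coe_filter, Set.mem_ofPred_eq] at hb
      have hb' := hA hb.1
      simp only [cells, Finset.mem_filter, Finset.mem_univ, true_and] at hb'
      simp only [Finset.coe_product, Set.mem_prod, Finset.mem_coe, Finset.mem_filter]
      refine ⟨⟨hb'.1, ?_⟩, ⟨hb'.2, ?_⟩⟩
      · simp [lo, hb.2]
      · simp [hi, hb.2]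
    · intro a ha b hb hab
      simp only [Finset.coe_filter, Set.mem_ofPred_eq] at ha hb
      simp only [Prod.mk.injEq] at hab
      have e1 : a.2.1 = b.2.1 := by
        have := congrArg Prod.snd hab.1
        simpa [lo] using this
      have e2 : a.2.2 = b.2.2 := by
        have := congrArg Prod.snd hab.2
        simpa [hi] using this
      exact Prod.ext (ha.2.trans hb.2.symm) (Prod.ext e1 e2)
  rw [Finset.card_product] at h3
  calc 256 * (A.filter (fun b => b.1 = e)).card
      ≤ 256 * ((T.filter (fun v => v.1 = e.1.1)).card * (T.filter (fun v => v.1 = e.1.2)).card) :=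
        Nat.mul_le_mul_left _ h3
    _ = (16 * (T.filter (fun v => v.1 = e.1.1)).card) *
        (16 * (T.filter (fun v => v.1 = e.1.2)).card) := by ring
    _ ≤ r * r := Nat.mul_le_mul h1 h2

/-- union bound with real values -/
theorem ub {ι : Type*} {α : Type*} [DecidableEq α] (I : Finset ι) (S : ι → Finset α) (q : ℝ)
    (h : ∀ i ∈ I, ((S i).card : ℝ) ≤ q) : ((I.biUnion S).card : ℝ) ≤ I.card * q := by
  calc ((I.biUnion S).card : ℝ) ≤ ((∑ i ∈ I, (S i).card : ℕ) : ℝ) := by
        exact_mod_cast Finset.card_biUnion_le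
    _ = ∑ i ∈ I, ((S i).card : ℝ) := by push_cast; rfl
    _ ≤ ∑ i ∈ I, q := Finset.sum_le_sum h
    _ = I.card * q := by rw [Finset.sum_const, nsmul_eq_mul]

theorem hME : ME := by
  intro hCU hCT hSA hSB hMP m r s hy T hT A hA c hc hcA
  have hn := num1 hy
  obtain ⟨hm1, hs3, hr16, hbig⟩ := id hy
  obtain ⟨hMP1, hMP2⟩ := hMP m r s hy T hT A hA
  set B := Fam m r s A with hB
  have hr : (0 : ℝ) < r := by
    have : 0 < r := by omega
    exact_mod_cast this
  have hC1 : 1 ≤ s.choose 2 := by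
    have : 0 < s.choose 2 := Nat.choose_pos (by omega)
    omega
  set Z : ℝ := ((Av B).card : ℝ) with hZ
  have hZ0 : 0 ≤ Z := Nat.cast_nonneg _
  set K : ℕ := (m * r) ^ (s - 2) with hK
  set q : ℝ := (2 / (r : ℝ)) ^ (s.choose 2 - 1) with hq
  have hq0 : 0 ≤ q := by positivity
  have hKq : (K : ℝ) * q ≤ 1 / 128 := by
    have : ((K : ℕ) : ℝ) = ((m : ℝ) * r) ^ (s - 2) := by rw [hK]; push_cast; rfl
    rw [this]; exact hn
  -- the families
  let P : Cl m r → Finset (Finset (Vx m r)) := fun b =>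
    ((univ : Finset (Vx m r)).powersetCard s).filter (fun X => Tv X ∧ b ∈ cells X)
  have hP : ∀ b, (P b).card ≤ K := by
    intro b
    refine le_trans (Finset.card_le_card ?_) (hCU m r s (lo b) (hi b) (lo_ne_hi b))
    intro X hX
    simp only [P, Finset.mem_filter] at hX ⊢
    refine ⟨hX.1, ?_⟩
    have := hX.2.2
    simpa [cells] using this
  have hPmem : ∀ b X, X ∈ P b → Tv X ∧ X.card = s ∧ b ∈ cells X := by
    intro b X hX
    simp only [P, Finset.mem_filter, Finset.mem_powersetCard] at hX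
    exact ⟨hX.2.1, hX.1.2, hX.2.2⟩
  have hPmem' : ∀ b X, Tv X → X.card = s → b ∈ cells X → X ∈ P b := by
    intro b X h1 h2 h3
    simp only [P, Finset.mem_filter, Finset.mem_powersetCard]
    exact ⟨⟨Finset.subset_univ _, h2⟩, h1, h3⟩
  -- erased sets
  have hTr : ∀ b X, X ∈ P b → Tr ((cells X).erase b) ∧ ((cells X).erase b).card = s.choose 2 - 1 ∧
      ∀ x ∈ (cells X).erase b, x.1 ≠ b.1 := by
    intro b X hX
    obtain ⟨h1, h2, h3⟩ := hPmem b X hX
    obtain ⟨t1, t2⟩ := hCT m r s X h1 h2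
    refine ⟨?_, ?_, ?_⟩
    · intro x hx y hy' hxy
      exact t1 x (Finset.mem_of_mem_erase hx) y (Finset.mem_of_mem_erase hy') hxy
    · rw [Finset.card_erase_of_mem h3, t2]
    · intro x hx hxb
      exact (Finset.ne_of_mem_erase hx) (t1 x (Finset.mem_of_mem_erase hx) b h3 hxb)
  -- set (a)
  let Sa : Finset (Vx m r) → Finset (Cfg m r) := fun X => Av B ∩ Ev ((cells X).erase c)
  let Ua : Finset (Cfg m r) := (P c).biUnion Sa
  have hUa : ((Ua.card : ℕ) : ℝ) ≤ 1 / 128 * Z := by
    have h1 : (((P c).biUnion Sa).card : ℝ) ≤ (P c).card * (q * Z) := by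
      apply ub
      intro X hX
      obtain ⟨t1, t2, t3⟩ := hTr c X hX
      have := hMP1 ((cells X).erase c) t1
      rw [t2] at this
      exact this
    refine h1.trans ?_
    have h2 : ((P c).card : ℝ) ≤ K := by exact_mod_cast hP c
    have h3 : 0 ≤ q * Z := mul_nonneg hq0 hZ0
    nlinarith [mul_le_mul_of_nonneg_right h2 h3, mul_le_mul_of_nonneg_right hKq hZ0]
  -- set (b)
  let Q : Finset (Cl m r) := (univ : Finset (Cl m r)).filter
    (fun b => b.1 = c.1 ∧ b.2.1 ≠ c.2.1 ∧ b.2.2 ≠ c.2.2)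
  have hQ : Q.card ≤ r * r := by
    refine le_trans (Finset.card_le_card ?_) (cntQ c.1)
    intro b hb
    simp only [Q, Finset.mem_filter] at hb ⊢
    exact ⟨hb.1, hb.2.1⟩
  let Sb : Cl m r → Finset (Vx m r) → Finset (Cfg m r) := fun b X =>
    Av B ∩ Ev (insert ((c.1, b.2.1, c.2.2) : Cl m r) (insert ((c.1, c.2.1, b.2.2) : Cl m r)
      ((cells X).erase b)))
  let Ub : Finset (Cfg m r) := Q.biUnion (fun b => (P b).biUnion (Sb b))
  have hUb : ((Ub.card : ℕ) : ℝ) ≤ 1 / 16 * Z := by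
    have h1 : ((Q.biUnion (fun b => (P b).biUnion (Sb b))).card : ℝ) ≤
        Q.card * (K * (2 * (2 / (r : ℝ)) ^ (s.choose 2 - 1 + 2) * Z)) := by
      apply ub
      intro b hb
      simp only [Q, Finset.mem_filter, Finset.mem_univ, true_and] at hb
      obtain ⟨b1, b2, b3⟩ := hb
      have h2 : (((P b).biUnion (Sb b)).card : ℝ) ≤
          (P b).card * (2 * (2 / (r : ℝ)) ^ (s.choose 2 - 1 + 2) * Z) := by
        apply ub
        intro X hX
        obtain ⟨t1, t2, t3⟩ := hTr b X hX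
        have := hMP2 ((cells X).erase b) ((c.1, b.2.1, c.2.2) : Cl m r)
          ((c.1, c.2.1, b.2.2) : Cl m r) t1 (fun x hx => by
            have := t3 x hx
            rw [b1] at this
            exact this) rfl b2 (fun h => b3 h.symm)
        rw [t2] at this
        exact this
      refine h2.trans ?_
      have h3 : ((P b).card : ℝ) ≤ K := by exact_mod_cast hP b
      apply mul_le_mul_of_nonneg_right h3
      positivity
    refine h1.trans ?_
    have h2 : (Q.card : ℝ) ≤ (r : ℝ) * r := by exact_mod_cast hQ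
    have h3 : (2 / (r : ℝ)) ^ (s.choose 2 - 1 + 2) = q * (4 / ((r : ℝ) * r)) := by
      rw [pow_add, ← hq]
      congr 1
      rw [div_pow]; norm_num [pow_two]
    rw [h3]
    have h4 : (0 : ℝ) ≤ (K : ℝ) * (2 * (q * (4 / ((r : ℝ) * r))) * Z) := by positivity
    calc (Q.card : ℝ) * ((K : ℝ) * (2 * (q * (4 / ((r : ℝ) * r))) * Z))
        ≤ ((r : ℝ) * r) * ((K : ℝ) * (2 * (q * (4 / ((r : ℝ) * r))) * Z)) :=
          mul_le_mul_of_nonneg_right h2 h4
      _ = 8 * ((K : ℝ) * q) * Z := by field_simp; ring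
      _ ≤ 1 / 16 * Z := by nlinarith [mul_le_mul_of_nonneg_right hKq hZ0]
  -- set (c)
  let R : Finset (Cl m r) := (A.filter (fun b => b.1 = c.1)).filter
    (fun b => b.2.1 ≠ c.2.1 ∧ b.2.2 ≠ c.2.2)
  let Sc : Cl m r → Finset (Cfg m r) := fun b =>
    Av B ∩ Ev (insert ((c.1, b.2.1, c.2.2) : Cl m r) (insert ((c.1, c.2.1, b.2.2) : Cl m r) ∅))
  let Uc : Finset (Cfg m r) := R.biUnion Sc
  have hUc : ((Uc.card : ℕ) : ℝ) ≤ 1 / 32 * Z := by
    have h1 : ((R.biUnion Sc).card : ℝ) ≤ R.card * (2 * (2 / (r : ℝ)) ^ 2 * Z) := by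
      apply ub
      intro b hb
      simp only [R, Finset.mem_filter] at hb
      obtain ⟨⟨b0, b1⟩, b2, b3⟩ := hb
      have := hMP2 ∅ ((c.1, b.2.1, c.2.2) : Cl m r) ((c.1, c.2.1, b.2.2) : Cl m r)
        (fun x hx => absurd hx (Finset.notMem_empty _))
        (fun x hx => absurd hx (Finset.notMem_empty _)) rfl b2 (fun h => b3 h.symm)
      rw [Finset.card_empty, Nat.zero_add] at this
      exact this
    refine h1.trans ?_
    have h2 : (256 : ℝ) * R.card ≤ (r : ℝ) * r := by
      have h3 := cntA hT hA c.1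
      have h4 : R.card ≤ (A.filter (fun b => b.1 = c.1)).card := Finset.card_filter_le _ _
      have h5 : 256 * R.card ≤ r * r := le_trans (Nat.mul_le_mul_left _ h4) h3
      exact_mod_cast h5
    have h6 : (2 : ℝ) * (2 / (r : ℝ)) ^ 2 * Z = 8 / ((r : ℝ) * r) * Z := by
      rw [div_pow, pow_two (r : ℝ)]; ring
    rw [h6]
    have h7 : (0 : ℝ) ≤ 8 / ((r : ℝ) * r) * Z := by positivity
    calc (R.card : ℝ) * (8 / ((r : ℝ) * r) * Z)
        ≤ ((r : ℝ) * r / 256) * (8 / ((r : ℝ) * r) * Z) := by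
          apply mul_le_mul_of_nonneg_right _ h7
          linarith
      _ = 1 / 32 * Z := by field_simp; ring
  -- the bad set
  have hbad : (Av B).filter (fun σ => ¬ Sw c σ ∈ Av B) ⊆ Ua ∪ (Ub ∪ Uc) := by
    intro σ hσ
    rw [Finset.mem_filter] at hσ
    obtain ⟨hσ1, hσ2⟩ := hσ
    rcases hSB hCT m r s A c σ hcA hσ1 hσ2 with ⟨X, x1, x2, x3, x4⟩ |
      ⟨X, b, x1, x2, x3, b1, b2, b3, x4, x5, x6⟩ | ⟨b, b0, b1, b2, b3, x5, x6⟩
    · apply Finset.mem_union_left
      simp only [Ua, Finset.mem_biUnion]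
      exact ⟨X, hPmem' c X x1 x2 x3, Finset.mem_inter.2 ⟨hσ1, mem_Ev.2 x4⟩⟩
    · apply Finset.mem_union_right
      apply Finset.mem_union_left
      simp only [Ub, Finset.mem_biUnion]
      refine ⟨b, ?_, X, hPmem' b X x1 x2 x3, Finset.mem_inter.2 ⟨hσ1, mem_Ev.2 ?_⟩⟩
      · simp only [Q, Finset.mem_filter, Finset.mem_univ, true_and]
        exact ⟨b1, b2, b3⟩
      · intro d hd
        rw [Finset.mem_insert, Finset.mem_insert] at hd
        rcases hd with rfl | rfl | hd
        · exact x5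
        · exact x6
        · exact x4 d hd
    · apply Finset.mem_union_right
      apply Finset.mem_union_right
      simp only [Uc, Finset.mem_biUnion]
      refine ⟨b, ?_, Finset.mem_inter.2 ⟨hσ1, mem_Ev.2 ?_⟩⟩
      · simp only [R, Finset.mem_filter]
        exact ⟨⟨b0, b1⟩, b2, b3⟩
      · intro d hd
        rw [Finset.mem_insert, Finset.mem_insert] at hd
        rcases hd with rfl | rfl | hd
        · exact x5
        · exact x6
        · exact absurd hd (Finset.notMem_empty _)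
  have hbadc : (((Av B).filter (fun σ => ¬ Sw c σ ∈ Av B)).card : ℝ) ≤
      1 / 128 * Z + (1 / 16 * Z + 1 / 32 * Z) := by
    have h1 : ((Av B).filter (fun σ => ¬ Sw c σ ∈ Av B)).card ≤ Ua.card + (Ub.card + Uc.card) :=
      (Finset.card_le_card hbad).trans ((Finset.card_union_le _ _).trans
        (Nat.add_le_add_left (Finset.card_union_le _ _) _))
    have h2 : (((Av B).filter (fun σ => ¬ Sw c σ ∈ Av B)).card : ℝ) ≤
        (Ua.card : ℝ) + ((Ub.card : ℝ) + (Uc.card : ℝ)) := by exact_mod_cast h1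
    linarith
  have hgood : (((Av B).filter (fun σ => Sw c σ ∈ Av B)).card : ℝ) ≤
      (r : ℝ) * (Av B ∩ Ev {c}).card := by
    exact_mod_cast hSA m r B c
  have hsum : ((Av B).filter (fun σ => Sw c σ ∈ Av B)).card +
      ((Av B).filter (fun σ => ¬ Sw c σ ∈ Av B)).card = (Av B).card :=
    Finset.card_filter_add_card_filter_not _
  have hsum' : (((Av B).filter (fun σ => Sw c σ ∈ Av B)).card : ℝ) +
      (((Av B).filter (fun σ => ¬ Sw c σ ∈ Av B)).card : ℝ) = Z := by
    rw [hZ]; exact_mod_cast hsum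
  nlinarith

end Pool.Agent.Helper33.OD
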